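import Mathlib
import Pool.Agent.Helper943.VCDefs
import Pool.Agent.Helper943.VCTrDefs
import Pool.Agent.Helper943.VCCoarse
import Pool.Agent.Helper943.VCR1
import Pool.Agent.Helper943.VCR2
import Pool.Agent.Helper943.VCR3

/-!
Symplectic homeomorphisms in the capacity sense preserve volume as soon as the capacities satisfy a
volume bound with some (not sharp) constant on the images of the unit ball under homeomorphisms.
In particular, for every capacity choice c and every finite L this holds for min(c, L c_vol), and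
these capacity choices converge to c as L tends to infinity.

Proof: the capacity bound shows that no c-symplectic homeomorphism shrinks the volume of a small
ball by more than a fixed factor. A Vitali covering gives the same for all sets. The c-symplectic
homeomorphisms form a group containing the translations; if the best constant M for the volume
distortion over the whole group were larger than 1, a composition φ ∘ (translation) ∘ φ would have
distortion close to M^2 on a set of positive measure, which is impossible. Hence M = 1.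
-/

set_option autoImplicit false

open MeasureTheory
open scoped ENNReal

namespace Pool.Agent.Results.MP_bd900e_gt.CoarseBound

open Pool.Agent.Helper943.VC

/-- There is a finite K with c(U)^m ≤ K vol(closure U) for all images U of the unit ball under
homeomorphisms of R^{2m}. -/
def CoarseVol (m : ℕ) (c : Set (Fin m → ℂ) → ℝ≥0∞) : Prop :=
  ∃ K : ℝ≥0∞, K ≠ ⊤ ∧ ∀ ψ : (Fin m → ℂ) ≃ₜ (Fin m → ℂ),
    c (ψ '' eball m 1) ^ m ≤ K * volume (closure (ψ '' eball m 1))

/-- φ preserves volume. -/
def VolPres {n : ℕ} (φ : (Fin n → ℂ) ≃ₜ (Fin n → ℂ)) : Prop :=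
  ∀ A : Set (Fin n → ℂ), MeasurableSet A → volume (φ '' A) = volume A

theorem result :
    (∀ c : (∀ m : ℕ, Set (Fin m → ℂ) → ℝ≥0∞), (∀ m, 1 ≤ m → IsCapacity m (c m)) →
      ∀ n, 1 ≤ n → (Odd n → CoarseVol n (c n)) → (Even n → CoarseVol (n + 1) (c (n + 1))) →
        ∀ φ : (Fin n → ℂ) ≃ₜ (Fin n → ℂ), IsCSympHomeo c n φ → VolPres φ) ∧
    (∀ c : (∀ m : ℕ, Set (Fin m → ℂ) → ℝ≥0∞), (∀ m, 1 ≤ m → IsCapacity m (c m)) →
      (∀ L : ℝ≥0∞, 1 ≤ L → L ≠ ⊤ → (∀ m, 1 ≤ m → IsCapacity m (trunc c L m)) ∧
        ∀ n, 1 ≤ n → ∀ φ : (Fin n → ℂ) ≃ₜ (Fin n → ℂ), IsCSympHomeo (trunc c L) n φ →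
          VolPres φ) ∧
      (∀ m, 1 ≤ m → ∀ U : Set (Fin m → ℂ), IsOpen U →
        Filter.Tendsto (fun k : ℕ => trunc c (k : ℝ≥0∞) m U) Filter.atTop (nhds (c m U)))) := by
  refine ⟨?_, ?_⟩
  · intro c hc n hn h1 h2 φ hφ
    exact coarse_flat c hc hn h1 h2 φ hφ
  · intro c hc
    refine ⟨?_, ?_⟩
    · intro L hL hLt
      have hcap : ∀ m, 1 ≤ m → IsCapacity m (trunc c L m) := fun m hm =>
        trunc_cap (fun f U V hU hf => hemb f U V hU hf) (fun n => eball_fin n)
          (fun n => eball_pos n) c L hL m hm (hc m hm)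
      refine ⟨hcap, ?_⟩
      intro n hn φ hφ
      exact coarse_flat (trunc c L) hcap hn
        (fun _ => trunc_coarse (fun n => eball_fin n) (fun n => eball_pos n) c L hLt n hn)
        (fun _ => trunc_coarse (fun n => eball_fin n) (fun n => eball_pos n) c L hLt (n + 1)
          (by omega)) φ hφ
    · intro m hm U hU
      exact trunc_sup (fun n => eball_fin n) (fun n => eball_pos n) c m hm (hc m hm) U hU

end Pool.Agent.Results.MP_bd900e_gt.CoarseBound
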