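import Mathlib
import Pool.Agent.Helper943.VCDefs
import Pool.Agent.Helper943.VCFam
import Pool.Agent.Helper943.VCMacG

/-!
For every capacity choice: either all c-symplectic homeomorphisms preserve volume, or there are
c-symplectic homeomorphisms which preserve the capacities of all open subsets of an arbitrarily
large ball and shrink the volume of the unit ball by an arbitrarily large factor.
-/

set_option autoImplicit false

open MeasureTheory
open scoped ENNReal

namespace Pool.Agent.Results.MP_bd900e_gt.Dichotomy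

open Pool.Agent.Helper943.VC

/-- The capacities of all open subsets of B(R) are preserved: c_n by f for odd n, c_{n+1} by
f times the identity of R^2 for even n. -/
def CapPresOn (c : ∀ m : ℕ, Set (Fin m → ℂ) → ℝ≥0∞) (n : ℕ) (R : ℝ)
    (f : (Fin n → ℂ) → (Fin n → ℂ)) : Prop :=
  (Odd n → ∀ V, IsOpen V → V ⊆ eball n R → c n (f '' V) = c n V) ∧
  (Even n → ∀ V, IsOpen V → V ⊆ eball (n + 1) R → c (n + 1) (prodId f '' V) = c (n + 1) V)

theorem result :
    ∀ c : (∀ m : ℕ, Set (Fin m → ℂ) → ℝ≥0∞), (∀ m, 1 ≤ m → IsCapacity m (c m)) →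
      ∀ n, 1 ≤ n →
        ClosedFam n {φ | IsCSympHomeo c n φ} ∧
        ∀ G : Set ((Fin n → ℂ) ≃ₜ (Fin n → ℂ)), ClosedFam n G → (∀ φ ∈ G, IsCSympHomeo c n φ) →
          (∀ φ ∈ G, ∀ A, MeasurableSet A → volume (φ '' A) = volume A) ∨
          (∀ (K : ℝ≥0∞) (R : ℝ), K ≠ ⊤ → ∃ φ ∈ G, φ 0 = 0 ∧ CapPresOn c n R φ ∧
            K * volume (φ '' closure (eball n 1)) < volume (eball n 1)) := by
  intro c hc n hn
  refine ⟨csymp_closed c hc hn, ?_⟩
  intro G hG hGc
  by_contra hno
  rw [not_or] at hno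
  obtain ⟨h1, h2⟩ := hno
  apply h1
  push Not at h2
  obtain ⟨K, R, hK, H⟩ := h2
  apply macro_stepG c hc hn K hK R G hG hGc
  intro φ hφ h0 ho he
  exact H φ hφ h0 ⟨ho, he⟩

end Pool.Agent.Results.MP_bd900e_gt.Dichotomy
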