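import Mathlib
import Pool.Agent.Helper943.VCDefs
import Pool.Agent.Helper943.VCMain

/-!
Symplectic homeomorphisms in the capacity sense preserve volume when the capacities of the chosen
family are bounded by the volume capacity in the odd dimensions that the definition uses, in
particular when they are the Gromov width.

Proof: both the map and its inverse cannot shrink the volume of small balls (the capacity of the
image is the capacity of the ball, and it is bounded by the volume of the image); a Vitali covering
turns this into an inequality for all open sets, in both directions.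
-/

set_option autoImplicit false

open MeasureTheory
open scoped ENNReal

namespace Pool.Agent.Results.MP_bd900e_gt.VolumeDominated

open Pool.Agent.Helper943.VC

theorem result :
    (∀ c : (∀ m : ℕ, Set (Fin m → ℂ) → ℝ≥0∞),
      (∀ m, 1 ≤ m → IsCapacity m (c m)) → (∀ m, Odd m → VolDominated m (c m)) →
      ∀ n, 1 ≤ n → ∀ φ : (Fin n → ℂ) ≃ₜ (Fin n → ℂ), IsCSympHomeo c n φ →
        ∀ A, MeasurableSet A → volume (φ '' A) = volume A) ∧
    (∀ n, 1 ≤ n → ∀ φ : (Fin n → ℂ) ≃ₜ (Fin n → ℂ),
      IsCSympHomeo (fun m => gromovWidth (n := m)) n φ →
        ∀ A, MeasurableSet A → volume (φ '' A) = volume A) := by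
  refine ⟨?_, ?_⟩
  · intro c hc hd n hn φ hφ
    apply main_any c ?_ ?_ hn φ hφ
    · intro m hm z r hr
      exact cap_ball (c m) (hc m hm.pos) (fun r => eball_open m r) (fun r hr => eball_smul m r hr)
        (fun z U => transl_emb z U) (fun z U hU => transl_open z U hU) z r hr
    · intro m hm W r hW hr h
      exact cap_vol hm.pos (c m) (hd m hm) (eball_fin m) (eball_pos m)
        (fun r hr => eball_vol m r hr) W hW r hr h
  · intro n hn φ hφ
    apply main_any (fun m => gromovWidth (n := m)) ?_ ?_ hn φ hφ
    · intro m _ z r hr
      exact gw_ball z r hr
    · intro m _ W r _ hr h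
      exact gw_vol (fun r hr => eball_vol m r hr) (fun r => eball_open m r)
        (fun f U V hU hf => hemb f U V hU hf) W r hr h


end Pool.Agent.Results.MP_bd900e_gt.VolumeDominated
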